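import Pool.Agent.H242R3.ES.Stmts

set_option autoImplicit false
set_option maxHeartbeats 4000000

/-! Project ES, task TLb: the cones over the facets tile the space, so the Gaussian integrals over
them add up to one. -/

open Finset MeasureTheory Filter Topology
open scoped Classical

namespace Pool.Agent.H725R3.ES

open Pool.Agent.H242R3.ES

variable {κ : Type} {m : ℕ}

/-- the cone over `s` -/
def cone (u : κ → EuclideanSpace ℝ (Fin m)) (s : Finset κ) : Set (EuclideanSpace ℝ (Fin m)) :=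
  {y | ∃ x : s → ℝ, (∀ i, 0 ≤ x i) ∧ y = ∑ i, x i • u i}

theorem gauss_one (m : ℕ) :
    ∫ y : EuclideanSpace ℝ (Fin m), Real.exp (-Real.pi * ‖y‖ ^ 2) = 1 := by
  rw [GaussianFourier.integral_rexp_neg_mul_sq_norm Real.pi_pos, div_self Real.pi_ne_zero,
    Real.one_rpow]

theorem gauss_int (m : ℕ) :
    Integrable (fun y : EuclideanSpace ℝ (Fin m) => Real.exp (-Real.pi * ‖y‖ ^ 2)) := by
  by_contra h
  have h1 := gauss_one m
  rw [integral_undef h] at h1
  exact zero_ne_one h1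

theorem cone_closed (u : κ → EuclideanSpace ℝ (Fin m)) (s : Finset κ)
    (hl : LinearIndependent ℝ (fun i : s => u i)) : IsClosed (cone u s) := by
  have hinj : Function.Injective (Fintype.linearCombination ℝ (fun i : s => u i)) :=
    linearIndependent_iff_injective_fintypeLinearCombination.mp hl
  have hce : IsClosedEmbedding (Fintype.linearCombination ℝ (fun i : s => u i)) :=
    LinearMap.isClosedEmbedding_of_injective (LinearMap.ker_eq_bot.mpr hinj)
  have horth : IsClosed {x : s → ℝ | ∀ i, 0 ≤ x i} := by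
    rw [Set.ofPred_forall]
    exact isClosed_iInter fun i => isClosed_le continuous_const (continuous_apply i)
  have himg : cone u s =
      (Fintype.linearCombination ℝ (fun i : s => u i)) '' {x : s → ℝ | ∀ i, 0 ≤ x i} := by
    ext y
    simp only [cone, Set.mem_ofPred_eq, Set.mem_image, Fintype.linearCombination_apply]
    constructor
    · rintro ⟨x, h1, h2⟩
      exact ⟨x, h1, h2.symm⟩
    · rintro ⟨x, h1, h2⟩
      exact ⟨x, h1, h2.symm⟩
  rw [himg]
  exact hce.isClosedMap _ horth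

/-- on the cone over `s`, the functional of `s` dominates the others -/
theorem inner_le_of_cone (u : κ → EuclideanSpace ℝ (Fin m)) (s : Finset κ)
    (n n' y : EuclideanSpace ℝ (Fin m)) (hn : ∀ k, k ∈ s → inner ℝ n (u k) = 1)
    (hn' : ∀ k, inner ℝ n' (u k) ≤ 1) (hy : y ∈ cone u s) :
    inner ℝ n' y ≤ inner ℝ n y := by
  obtain ⟨x, hx, rfl⟩ := hy
  rw [inner_sum, inner_sum]
  apply Finset.sum_le_sum
  intro i _
  rw [inner_smul_right, inner_smul_right, hn i i.2]
  exact mul_le_mul_of_nonneg_left (hn' i) (hx i)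

theorem overlap_null (u : κ → EuclideanSpace ℝ (Fin m)) (s s' : Finset κ)
    (n n' : EuclideanSpace ℝ (Fin m)) (hne : s ≠ s')
    (hn1 : ∀ k, inner ℝ n (u k) ≤ 1) (hn : ∀ k, k ∈ s ↔ inner ℝ n (u k) = 1)
    (hn1' : ∀ k, inner ℝ n' (u k) ≤ 1) (hn' : ∀ k, k ∈ s' ↔ inner ℝ n' (u k) = 1) :
    volume (cone u s ∩ cone u s') = 0 := by
  have hnn : n - n' ≠ 0 := by
    intro h
    apply hne
    rw [sub_eq_zero] at h
    ext k
    rw [hn k, hn' k, h]
  have hsub : cone u s ∩ cone u s' ⊆ ((ℝ ∙ (n - n'))ᗮ : Submodule ℝ (EuclideanSpace ℝ (Fin m))) := by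
    rintro y ⟨h1, h2⟩
    have e1 := inner_le_of_cone u s n n' y (fun k hk => (hn k).mp hk) hn1' h1
    have e2 := inner_le_of_cone u s' n' n y (fun k hk => (hn' k).mp hk) hn1 h2
    rw [SetLike.mem_coe, Submodule.mem_orthogonal_singleton_iff_inner_right, inner_sub_left]
    linarith
  refine measure_mono_null hsub ?_
  apply Measure.addHaar_submodule
  intro h
  have h2 : n - n' ∈ ((ℝ ∙ (n - n'))ᗮ : Submodule ℝ (EuclideanSpace ℝ (Fin m))) := by
    rw [h]
    exact Submodule.mem_top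
  rw [Submodule.mem_orthogonal_singleton_iff_inner_right, inner_self_eq_zero] at h2
  exact hnn h2

/-- the polar polytope is compact -/
theorem polar_compact [Fintype κ] (u : κ → EuclideanSpace ℝ (Fin m))
    (h0 : ∀ n : EuclideanSpace ℝ (Fin m), n ≠ 0 → ∃ k, 0 < inner ℝ n (u k)) :
    IsCompact {n : EuclideanSpace ℝ (Fin m) | ∀ k, inner ℝ n (u k) ≤ 1} := by
  have hclosed : IsClosed {n : EuclideanSpace ℝ (Fin m) | ∀ k, inner ℝ n (u k) ≤ 1} := by
    rw [Set.ofPred_forall]
    exact isClosed_iInter fun k => isClosed_le (by fun_prop) continuous_const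
  rcases isEmpty_or_nonempty κ with hκ | hκ
  · -- then the space is trivial
    have hsub : Subsingleton (EuclideanSpace ℝ (Fin m)) := by
      refine ⟨fun a b => ?_⟩
      by_contra hab
      obtain ⟨k, _⟩ := h0 (a - b) (sub_ne_zero.mpr hab)
      exact hκ.elim k
    exact (Set.subsingleton_of_subsingleton.finite).isCompact
  · -- the max over `k` is continuous and positive on the sphere
    set g : EuclideanSpace ℝ (Fin m) → ℝ := fun n =>
      Finset.univ.sup' Finset.univ_nonempty (fun k => inner ℝ n (u k)) with hg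
    have hgc : Continuous g := by
      rw [hg]
      apply Continuous.finset_sup'_apply
      intro k _
      fun_prop
    have hle : ∀ n k, inner ℝ n (u k) ≤ g n := fun n k =>
      Finset.le_sup' (fun k => inner ℝ n (u k)) (Finset.mem_univ k)
    rcases (Metric.sphere (0 : EuclideanSpace ℝ (Fin m)) 1).eq_empty_or_nonempty with hs | hs
    · have hall : ∀ a : EuclideanSpace ℝ (Fin m), a = 0 := by
        intro a
        by_contra ha
        have : (‖a‖⁻¹ • a) ∈ Metric.sphere (0 : EuclideanSpace ℝ (Fin m)) 1 := by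
          rw [mem_sphere_zero_iff_norm, norm_smul, norm_inv, norm_norm,
            inv_mul_cancel₀ (norm_ne_zero_iff.mpr ha)]
        rw [hs] at this
        exact this
      have hsub : Subsingleton (EuclideanSpace ℝ (Fin m)) :=
        ⟨fun a b => by rw [hall a, hall b]⟩
      exact (Set.subsingleton_of_subsingleton.finite).isCompact
    · obtain ⟨n0, hn0, hmin⟩ := (isCompact_sphere (0 : EuclideanSpace ℝ (Fin m)) 1).exists_isMinOn hs
        hgc.continuousOn
      have hn0' : n0 ≠ 0 := by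
        rintro rfl
        rw [mem_sphere_zero_iff_norm, norm_zero] at hn0
        exact zero_ne_one hn0
      have hc : 0 < g n0 := by
        obtain ⟨k, hk⟩ := h0 n0 hn0'
        exact hk.trans_le (hle n0 k)
      refine Metric.isCompact_of_isClosed_isBounded hclosed ?_
      rw [isBounded_iff_forall_norm_le]
      refine ⟨(g n0)⁻¹, ?_⟩
      intro n hn
      by_cases hnz : n = 0
      · rw [hnz, norm_zero]
        exact (inv_pos.mpr hc).le
      have hnp : 0 < ‖n‖ := norm_pos_iff.mpr hnz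
      have hmem : (‖n‖⁻¹ • n) ∈ Metric.sphere (0 : EuclideanSpace ℝ (Fin m)) 1 := by
        rw [mem_sphere_zero_iff_norm, norm_smul, norm_inv, norm_norm, inv_mul_cancel₀ hnp.ne']
      have h1 : g n0 ≤ g (‖n‖⁻¹ • n) := hmin hmem
      have h2 : g (‖n‖⁻¹ • n) ≤ ‖n‖⁻¹ := by
        rw [hg]
        apply Finset.sup'_le
        intro k _
        rw [real_inner_smul_left]
        have := hn k
        calc ‖n‖⁻¹ * inner ℝ n (u k) ≤ ‖n‖⁻¹ * 1 :=
              mul_le_mul_of_nonneg_left this (inv_pos.mpr hnp).le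
          _ = ‖n‖⁻¹ := mul_one _
      exact (le_inv_comm₀ hc hnp).mp (h1.trans h2)

/-- perturbation inside the polar polytope -/
theorem perturb [Fintype κ] (u : κ → EuclideanSpace ℝ (Fin m)) (n w : EuclideanSpace ℝ (Fin m))
    (hn : ∀ k, inner ℝ n (u k) ≤ 1) (hw : ∀ k, inner ℝ n (u k) = 1 → inner ℝ w (u k) ≤ 0) :
    ∃ ε : ℝ, 0 < ε ∧ ∀ k, inner ℝ (n + ε • w) (u k) ≤ 1 := by
  have hev : ∀ᶠ ε : ℝ in 𝓝[>] 0, ∀ k, inner ℝ (n + ε • w) (u k) ≤ 1 := by
    rw [eventually_all]
    intro k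
    rcases (hn k).lt_or_eq with h | h
    · have hcont : Continuous fun ε : ℝ => inner ℝ (n + ε • w) (u k) := by fun_prop
      have h1 : Tendsto (fun ε : ℝ => inner ℝ (n + ε • w) (u k)) (𝓝 0) (𝓝 (inner ℝ n (u k))) := by
        have := hcont.tendsto 0
        simpa using this
      have h2 : ∀ᶠ ε : ℝ in 𝓝 0, inner ℝ (n + ε • w) (u k) < 1 := h1.eventually_lt_const h
      exact (h2.filter_mono nhdsWithin_le_nhds).mono fun ε hε => hε.le
    · filter_upwards [self_mem_nhdsWithin] with ε hε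
      rw [inner_add_left, real_inner_smul_left, h]
      have : ε * inner ℝ w (u k) ≤ 0 := mul_nonpos_of_nonneg_of_nonpos (le_of_lt hε) (hw k h)
      linarith
  have hpos : ∀ᶠ ε : ℝ in 𝓝[>] 0, 0 < ε := self_mem_nhdsWithin
  obtain ⟨ε, h1, h2⟩ := (hpos.and hev).exists
  exact ⟨ε, h1, h2⟩

theorem cover [Fintype κ] (hm : 1 ≤ m) (u : κ → EuclideanSpace ℝ (Fin m)) (S : Finset (Finset κ))
    (h0 : ∀ n : EuclideanSpace ℝ (Fin m), n ≠ 0 → ∃ k, 0 < inner ℝ n (u k))
    (h1 : ∀ s ∈ S, s.card = m ∧ LinearIndependent ℝ (fun i : s => u i) ∧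
      ∃ n : EuclideanSpace ℝ (Fin m), (∀ k, inner ℝ n (u k) ≤ 1) ∧ ∀ k, k ∈ s ↔ inner ℝ n (u k) = 1)
    (h2 : ∀ n : EuclideanSpace ℝ (Fin m), (∀ k, inner ℝ n (u k) ≤ 1) →
      (∃ k, inner ℝ n (u k) = 1) → ∃ s ∈ S, ∀ k, inner ℝ n (u k) = 1 → k ∈ s)
    (y : EuclideanSpace ℝ (Fin m)) (hy : y ≠ 0) : ∃ s ∈ S, y ∈ cone u s := by
  have hne : {n : EuclideanSpace ℝ (Fin m) | ∀ k, inner ℝ n (u k) ≤ 1}.Nonempty :=
    ⟨0, fun k => by rw [inner_zero_left]; exact zero_le_one⟩
  obtain ⟨n, hn, hmax⟩ := (polar_compact u h0).exists_isMaxOn hne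
    (f := fun n => inner ℝ n y) (by fun_prop)
  have hn' : ∀ k, inner ℝ n (u k) ≤ 1 := hn
  -- no admissible direction increases the product with `y`
  have hno : ∀ w : EuclideanSpace ℝ (Fin m),
      (∀ k, inner ℝ n (u k) = 1 → inner ℝ w (u k) ≤ 0) → inner ℝ w y ≤ 0 := by
    intro w hw
    obtain ⟨ε, hε, h⟩ := perturb u n w hn' hw
    have h3 : inner ℝ (n + ε • w) y ≤ inner ℝ n y := hmax h
    rw [inner_add_left, real_inner_smul_left] at h3
    by_contra hcon
    push Not at hcon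
    have := mul_pos hε hcon
    linarith
  have hT : ∃ k, inner ℝ n (u k) = 1 := by
    by_contra hcon
    push Not at hcon
    have := hno y (fun k hk => absurd hk (hcon k))
    rw [real_inner_self_eq_norm_sq] at this
    have h3 : 0 < ‖y‖ ^ 2 := by
      have := norm_pos_iff.mpr hy
      positivity
    linarith
  obtain ⟨s, hs, hTs⟩ := h2 n hn' hT
  refine ⟨s, hs, ?_⟩
  obtain ⟨hcard, hl, _⟩ := h1 s hs
  have hfr : Fintype.card s = Module.finrank ℝ (EuclideanSpace ℝ (Fin m)) := by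
    rw [Fintype.card_coe, hcard, finrank_euclideanSpace_fin]
  have hsne : Nonempty s := by
    rw [← Fintype.card_pos_iff, Fintype.card_coe, hcard]
    exact hm
  let b := basisOfLinearIndependentOfCardEqFinrank hl hfr
  have hb : ∀ i : s, b i = u i := fun i => by
    simp [b]
  refine ⟨fun i => b.repr y i, ?_, ?_⟩
  · intro i
    -- the linear functional `- b.coord i` is given by a vector `w`
    let w : EuclideanSpace ℝ (Fin m) :=
      (InnerProductSpace.toDual ℝ (EuclideanSpace ℝ (Fin m))).symm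
        (LinearMap.toContinuousLinearMap (-(b.coord i)))
    have hw : ∀ z, inner ℝ w z = -(b.repr z i) := by
      intro z
      simp only [w]
      rw [InnerProductSpace.toDual_symm_apply]
      simp
    have h3 := hno w (by
      intro k hk
      have hks := hTs k hk
      have h4 : u k = b ⟨k, hks⟩ := (hb ⟨k, hks⟩).symm
      rw [hw, h4, Module.Basis.repr_self]
      have : (0 : ℝ) ≤ (Finsupp.single (⟨k, hks⟩ : s) (1 : ℝ)) i := by
        rw [Finsupp.single_apply]
        split_ifs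
        · exact zero_le_one
        · exact le_rfl
      linarith)
    rw [hw] at h3
    linarith
  · have h3 := b.sum_repr y
    simp only [hb] at h3
    exact h3.symm

theorem cover_all [Fintype κ] (hm : 1 ≤ m) (u : κ → EuclideanSpace ℝ (Fin m)) (S : Finset (Finset κ))
    (h0 : ∀ n : EuclideanSpace ℝ (Fin m), n ≠ 0 → ∃ k, 0 < inner ℝ n (u k))
    (h1 : ∀ s ∈ S, s.card = m ∧ LinearIndependent ℝ (fun i : s => u i) ∧
      ∃ n : EuclideanSpace ℝ (Fin m), (∀ k, inner ℝ n (u k) ≤ 1) ∧ ∀ k, k ∈ s ↔ inner ℝ n (u k) = 1)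
    (h2 : ∀ n : EuclideanSpace ℝ (Fin m), (∀ k, inner ℝ n (u k) ≤ 1) →
      (∃ k, inner ℝ n (u k) = 1) → ∃ s ∈ S, ∀ k, inner ℝ n (u k) = 1 → k ∈ s) :
    (⋃ s : S, cone u s) = Set.univ := by
  rw [Set.eq_univ_iff_forall]
  intro y
  rw [Set.mem_iUnion]
  by_cases hy : y = 0
  · -- some cone exists
    have hex : ∃ y' : EuclideanSpace ℝ (Fin m), y' ≠ 0 := by
      refine ⟨EuclideanSpace.single (⟨0, hm⟩ : Fin m) (1 : ℝ), ?_⟩
      intro h
      have := congrArg (fun z : EuclideanSpace ℝ (Fin m) => z (⟨0, hm⟩ : Fin m)) h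
      simp at this
    obtain ⟨y', hy'⟩ := hex
    obtain ⟨s, hs, _⟩ := cover hm u S h0 h1 h2 y' hy'
    refine ⟨⟨s, hs⟩, 0, fun i => le_rfl, ?_⟩
    simp [hy]
  · obtain ⟨s, hs, h⟩ := cover hm u S h0 h1 h2 y hy
    exact ⟨⟨s, hs⟩, h⟩

/-- TLb: the Gaussian integrals over the cones over the facets add up to one. -/
theorem tlb [Fintype κ] (hm : 1 ≤ m) (u : κ → EuclideanSpace ℝ (Fin m)) (S : Finset (Finset κ))
    (h0 : ∀ n : EuclideanSpace ℝ (Fin m), n ≠ 0 → ∃ k, 0 < inner ℝ n (u k))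
    (h1 : ∀ s ∈ S, s.card = m ∧ LinearIndependent ℝ (fun i : s => u i) ∧
      ∃ n : EuclideanSpace ℝ (Fin m), (∀ k, inner ℝ n (u k) ≤ 1) ∧ ∀ k, k ∈ s ↔ inner ℝ n (u k) = 1)
    (h2 : ∀ n : EuclideanSpace ℝ (Fin m), (∀ k, inner ℝ n (u k) ≤ 1) →
      (∃ k, inner ℝ n (u k) = 1) → ∃ s ∈ S, ∀ k, inner ℝ n (u k) = 1 → k ∈ s) :
    ∑ s ∈ S, ∫ y in {y | ∃ x : s → ℝ, (∀ i, 0 ≤ x i) ∧ y = ∑ i, x i • u i},
      Real.exp (-Real.pi * ‖y‖ ^ 2) = 1 := by
  have hmeas : ∀ s : S, NullMeasurableSet (cone u s) (volume : Measure (EuclideanSpace ℝ (Fin m))) :=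
    fun s => (cone_closed u s (h1 s s.2).2.1).measurableSet.nullMeasurableSet
  have hdisj : Pairwise (Function.onFun (AEDisjoint (volume : Measure (EuclideanSpace ℝ (Fin m))))
      fun s : S => cone u s) := by
    intro s s' hss
    obtain ⟨n, hn1, hn⟩ := (h1 s s.2).2.2
    obtain ⟨n', hn1', hn'⟩ := (h1 s' s'.2).2.2
    exact overlap_null u s s' n n' (fun h => hss (Subtype.ext h)) hn1 hn hn1' hn'
  have hcov := cover_all hm u S h0 h1 h2
  have h3 := integral_iUnion_ae (μ := (volume : Measure (EuclideanSpace ℝ (Fin m))))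
    (f := fun y => Real.exp (-Real.pi * ‖y‖ ^ 2)) hmeas hdisj
    ((gauss_int m).integrableOn)
  rw [hcov, setIntegral_univ, gauss_one, tsum_fintype] at h3
  rw [h3]
  exact (Finset.sum_coe_sort S (fun s => ∫ y in cone u s, Real.exp (-Real.pi * ‖y‖ ^ 2))).symm

/-- the change of variables of task TLa -/
def TLaStmt : Prop := ∀ (κ : Type) [Fintype κ] (m : ℕ) (s : Finset κ)
  (u : κ → EuclideanSpace ℝ (Fin m)), s.card = m → LinearIndependent ℝ (fun i : s => u i) →
  Real.sqrt (GU s u).det * ∫ x in {x : s → ℝ | ∀ i, 0 ≤ x i},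
      Real.exp (-Real.pi * ∑ i : s, ∑ k : s, x i * inner ℝ (u i) (u k) * x k) =
    ∫ y in {y | ∃ x : s → ℝ, (∀ i, 0 ≤ x i) ∧ y = ∑ i, x i • u i}, Real.exp (-Real.pi * ‖y‖ ^ 2)

/-- assembly of TaskTL from the change of variables -/
theorem taskTL_of (h : TLaStmt) : TaskTL := by
  intro κ _ m hm u S h0 h1 h2
  rw [← tlb hm u S h0 h1 h2]
  apply Finset.sum_congr rfl
  intro s hs
  exact h κ m s u (h1 s hs).1 (h1 s hs).2.1

end Pool.Agent.H725R3.ES
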