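import Pool.Agent.H242R3.ES.StmtsK

/-! Project ES, task K14: assembly of the three-dimensional case. -/

set_option autoImplicit false
set_option maxHeartbeats 4000000

open MeasureTheory Finset
open scoped Classical

namespace Pool.Agent.H725R3.ESK14

open Pool.Agent.H242R3.ES

variable {D : ℕ}

theorem B_add_left (x y z : LV D) : B (x + y) z = B x z + B y z := by
  unfold B
  simp only [Pi.add_apply, add_mul, Finset.sum_add_distrib]
  ring

theorem B_comm (x y : LV D) : B x y = B y x := by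
  unfold B
  simp only [mul_comm]

theorem B_add_right (x y z : LV D) : B x (y + z) = B x y + B x z := by
  rw [B_comm, B_add_left, B_comm y, B_comm z]

theorem B_smul_left (c : ℝ) (x y : LV D) : B (c • x) y = c * B x y := by
  unfold B
  simp only [Pi.smul_apply, smul_eq_mul, mul_assoc, ← Finset.mul_sum]
  ring

/-- the functional given by a vector -/
noncomputable def Bl (y : LV D) : LV D →ₗ[ℝ] ℝ where
  toFun x := B x y
  map_add' x z := B_add_left x z y
  map_smul' c x := B_smul_left c x y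

theorem face_empty {ι : Type} [Fintype ι] {V : ι → LV D} (h : GQ D V) : Face V ∅ := by
  obtain ⟨w, _, hw⟩ := h.tw
  refine ⟨-Bl w, ?_, ?_⟩
  · intro i
    have := hw i
    change 0 ≤ -(B (V i) w)
    linarith
  · intro i
    have := hw i
    change i ∈ (∅ : Set ι) ↔ -(B (V i) w) = 0
    constructor
    · intro hi
      exact absurd hi (Set.notMem_empty i)
    · intro hi
      exfalso
      linarith

section

variable {ι : Type} [Fintype ι] {V V' : ι → LV 3}

theorem fc_transfer (h7 : TaskG7) (hV : GQ 3 V) (hF : ∀ S, Face V S ↔ Face V' S) {F : Set ι}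
    (h : Fc V F) : Fc V' F := by
  refine ⟨(hF F).mp h.1, ?_⟩
  rw [← h7 ι (LV 3) (LV 3) V V' hF (face_empty hV) F h.1]
  exact h.2

theorem ed_transfer (h7 : TaskG7) (hV : GQ 3 V) (hF : ∀ S, Face V S ↔ Face V' S) {F : Set ι}
    (h : Ed V F) : Ed V' F := by
  refine ⟨(hF F).mp h.1, ?_⟩
  rw [← h7 ι (LV 3) (LV 3) V V' hF (face_empty hV) F h.1]
  exact h.2

/-- a vertex of a facet lies on two edges of the facet -/
theorem two_edges (hE : EdgeB) (hD : DPC) (hV : GQ 3 V) {N : Set ι → LV 3} (hN : NrmP V N)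
    {i : ι} {F : Set ι} (hF : Fc V F) (hi : i ∈ F) :
    ∃ e f : Set ι, e ≠ f ∧ Ed V e ∧ Ed V f ∧ i ∈ e ∧ i ∈ f ∧ e ⊆ F ∧ f ⊆ F := by
  obtain ⟨hdp, hne⟩ := hD ι V hV N hN
  have h0 : B (V i) (N F) = 0 := ((hN F hF).2 i).2.mpr hi
  obtain ⟨e, f, hef, hall⟩ := hdp.fl i ⟨F, hF⟩ h0
  have he := (hall e).mpr (Or.inl rfl)
  have hf := (hall f).mpr (Or.inr rfl)
  have h3 := (hE ι V hV).2.2.1
  refine ⟨e.1, f.1, fun h => hef (Subtype.ext h), e.2, f.2, ?_, ?_, ?_, ?_⟩
  · exact ((h3 e.1 e.2).2 i).2.mp he.1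
  · exact ((h3 f.1 f.2).2 i).2.mp hf.1
  · exact (hne F e.1 hF e.2).mp he.2
  · exact (hne F f.1 hF f.2).mp hf.2

/-- an edge with two given vertices is the pair -/
theorem edge_eq (hE : EdgeB) (hV : GQ 3 V) {e : Set ι} (he : Ed V e) {v w : ι} (hvw : v ≠ w)
    (hv : v ∈ e) (hw : w ∈ e) : e = {v, w} := by
  obtain ⟨i, j, hij, rfl, _⟩ := ((hE ι V hV).1 e).mp he
  rcases hv with rfl | hv
  · rcases hw with rfl | hw
    · exact absurd rfl hvw
    · rw [Set.mem_singleton_iff] at hw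
      rw [hw]
  · rw [Set.mem_singleton_iff] at hv
    subst hv
    rcases hw with rfl | hw
    · exact Set.pair_comm _ _
    · rw [Set.mem_singleton_iff] at hw
      exact absurd hw.symm hvw

theorem pair_ed (hE : EdgeB) (hV : GQ 3 V) {v w : ι} (hvw : v ≠ w) (h : Face V {v, w}) :
    Ed V {v, w} := ((hE ι V hV).1 _).mpr ⟨v, w, hvw, rfl, h⟩

/-- a facet has an edge avoiding one of its vertices -/
theorem avoid (hE : EdgeB) (hD : DPC) (hV : GQ 3 V) {N : Set ι → LV 3} (hN : NrmP V N)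
    {v w : ι} {F : Set ι} (hF : Fc V F) (hw : w ∈ F) (hwv : w ≠ v) :
    ∃ o : Set ι, Ed V o ∧ v ∉ o := by
  obtain ⟨e, f, hef, he, hf, hwe, hwf, _, _⟩ := two_edges hE hD hV hN hF hw
  by_cases hve : v ∈ e
  · refine ⟨f, hf, fun hvf => hef ?_⟩
    rw [edge_eq hE hV he hwv hwe hve, edge_eq hE hV hf hwv hwf hvf]
  · exact ⟨e, he, hve⟩

/-- the product of two edges at a vertex -/
theorem prod_edges (hE : EdgeB) (hV : GQ 3 V) {v w u : ι} (hwv : w ≠ v) (huv : u ≠ v)
    (hvw : Face V {v, w}) (hvu : Face V {v, u}) :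
    B (SY V {v, w}) (SY V {v, u}) = B (V w) (V u) - 1 := by
  rw [(hE ι V hV).2.1 v w hwv.symm, (hE ι V hV).2.1 v u huv.symm, B_add_left, B_add_right,
    B_add_right, hV.norm v, hV.edge v u huv.symm hvu, B_comm (V w) (V v),
    hV.edge v w hwv.symm hvw]
  ring

/-- the identity K7 for a flag -/
theorem flag_id (hE : EdgeB) (h7 : K7) (hV : GQ 3 V) {N : Set ι → LV 3} (hN : NrmP V N)
    {v w u : ι} {F o : Set ι} (hF : Fc V F) (hvF : v ∈ F) (hwF : w ∈ F) (huF : u ∈ F)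
    (hwv : w ≠ v) (huv : u ≠ v) (hwu : w ≠ u) (hvw : Face V {v, w}) (hvu : Face V {v, u})
    (ho : Ed V o) :
    (B (V v) (SY V o) ^ 2 + B (N F) (SY V o) ^ 2) * (B (V w) (V u) - 1) =
      -2 * ((B (V v) (SY V o) + B (V w) (SY V o)) * (B (V v) (SY V o) + B (V u) (SY V o))) := by
  have hsy := (hE ι V hV).2.1
  have h3 := (hE ι V hV).2.2.1
  have e1 : Ed V {v, w} := pair_ed hE hV hwv.symm hvw
  have e2 : Ed V {v, u} := pair_ed hE hV huv.symm hvu
  have hne : ({v, w} : Set ι) ≠ {v, u} := by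
    intro h
    have : w ∈ ({v, u} : Set ι) := by
      rw [← h]
      exact Or.inr rfl
    rcases this with h1 | h1
    · exact hwv h1
    · exact hwu h1
  have hz : ∀ i ∈ F, B (V i) (N F) = 0 := fun i hi => ((hN F hF).2 i).2.mpr hi
  have hpq : B (SY V {v, w}) (SY V {v, u}) ≠ 0 := ne_of_lt ((hE ι V hV).2.2.2.1 _ _ e1 e2 hne)
  have key := h7 (V v) (N F) (SY V {v, w}) (SY V {v, u}) (SY V o) (hV.norm v) (hN F hF).1
    (hz v hvF) (((h3 _ e1).2 v).2.mpr (Or.inl rfl)) (((h3 _ e2).2 v).2.mpr (Or.inl rfl))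
    (by rw [hsy v w hwv.symm, B_comm, B_add_left, hz v hvF, hz w hwF, add_zero])
    (by rw [hsy v u huv.symm, B_comm, B_add_left, hz v hvF, hz u huF, add_zero])
    (h3 _ e1).1 (h3 _ e2).1 hpq
  rw [(h3 o ho).1, zero_mul, prod_edges hE hV hwv huv hvw hvu] at key
  have k1 : B (SY V {v, w}) (SY V o) = B (V v) (SY V o) + B (V w) (SY V o) := by
    rw [hsy v w hwv.symm, B_add_left]
  have k2 : B (SY V {v, u}) (SY V o) = B (V v) (SY V o) + B (V u) (SY V o) := by
    rw [hsy v u huv.symm, B_add_left]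
  rw [k1, k2] at key
  linarith

end

theorem t : TaskK14 := by
  intro hG2 hG3 hG7 hE hNrm hNS h7 hD hM hK ι _ V V' hV hV' hF
  obtain ⟨N, hN⟩ := hNrm ι V hV
  obtain ⟨N', hN'⟩ := hNrm ι V' hV'
  refine hK ι V V' hV hV' hF N N' hN hN' ?_ ?_
  · intro v w u F hFc hvF hwF huF hwv huv hvw hvu
    by_cases hwu : w = u
    · subst hwu
      rw [hV.norm, hV'.norm]
    obtain ⟨o, ho, hvo⟩ := avoid hE hD hV hN hFc hwF hwv
    obtain ⟨c, hc, hcV, hcN⟩ := hM ι V V' hV hV' hF N N' hN hN' o ho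
    have i1 := flag_id hE h7 hV hN hFc hvF hwF huF hwv huv hwu hvw hvu ho
    have i2 := flag_id hE h7 hV' hN' (fc_transfer hG7 hV hF hFc) hvF hwF huF hwv huv hwu
      ((hF _).mp hvw) ((hF _).mp hvu) (ed_transfer hG7 hV hF ho)
    rw [hcV v, hcV w, hcV u, hcN F hFc] at i2
    have ha : B (V v) (SY V o) ≠ 0 := by
      intro h0
      exact hvo ((((hE ι V hV).2.2.1 o ho).2 v).2.mp h0)
    set a := B (V v) (SY V o) with hadef
    set n := B (N F) (SY V o)
    set bw := B (V w) (SY V o)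
    set bu := B (V u) (SY V o)
    set p := B (V w) (V u)
    set p' := B (V' w) (V' u)
    have hA : 0 < a ^ 2 + n ^ 2 := by positivity
    have h1 : c ^ 2 * ((a ^ 2 + n ^ 2) * (p' - 1)) = c ^ 2 * ((a ^ 2 + n ^ 2) * (p - 1)) := by
      rw [i1]
      linear_combination i2
    have h2 : (a ^ 2 + n ^ 2) * (p' - 1) = (a ^ 2 + n ^ 2) * (p - 1) :=
      mul_left_cancel₀ (by positivity) h1
    have h3 := mul_left_cancel₀ hA.ne' h2
    linarith
  · intro F G hFc hGc hFG he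
    obtain ⟨c1, hc1, s1⟩ := hNS ι V hV N hN F G hFc hGc hFG he
    obtain ⟨c2, hc2, s2⟩ := hNS ι V' hV' N' hN' F G (fc_transfer hG7 hV hF hFc)
      (fc_transfer hG7 hV hF hGc) hFG (ed_transfer hG7 hV hF he)
    obtain ⟨i, j, hij, heq, hface⟩ := ((hE ι V hV).1 _).mp he
    have hiF : i ∈ F ∩ G := by
      rw [heq]
      exact Or.inl rfl
    obtain ⟨o, ho, hoe⟩ : ∃ o, Ed V o ∧ F ∩ G ≠ o := by
      obtain ⟨e, f, hef, he', hf', _⟩ := two_edges hE hD hV hN hFc hiF.1
      by_cases h : F ∩ G = e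
      · exact ⟨f, hf', fun h' => hef (h.symm.trans h')⟩
      · exact ⟨e, he', h⟩
    obtain ⟨c, hc, hcV, hcN⟩ := hM ι V V' hV hV' hF N N' hN hN' o ho
    have hb : B (SY V (F ∩ G)) (SY V o) < 0 := (hE ι V hV).2.2.2.1 _ _ he ho hoe
    have t1 : B (N F) (SY V o) + B (N G) (SY V o) = c1 * B (SY V (F ∩ G)) (SY V o) := by
      rw [← B_add_left, s1, B_smul_left]
    have t2 : B (N' F) (SY V' o) + B (N' G) (SY V' o) = c2 * B (SY V' (F ∩ G)) (SY V' o) := by
      rw [← B_add_left, s2, B_smul_left]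
    have t3 : B (SY V' (F ∩ G)) (SY V' o) = c * B (SY V (F ∩ G)) (SY V o) := by
      rw [heq, (hE ι V hV).2.1 i j hij, (hE ι V' hV').2.1 i j hij, B_add_left, B_add_left, hcV i,
        hcV j]
      ring
    rw [hcN F hFc, hcN G hGc, t3, ← mul_add, t1] at t2
    have hcb : c * B (SY V (F ∩ G)) (SY V o) ≠ 0 := mul_ne_zero hc.ne' hb.ne
    have h12 : c1 = c2 := by
      have h4 : c1 * (c * B (SY V (F ∩ G)) (SY V o)) = c2 * (c * B (SY V (F ∩ G)) (SY V o)) := by
        linear_combination t2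
      exact mul_right_cancel₀ hcb h4
    refine ⟨c1, s1, ?_⟩
    rw [h12]
    exact s2

end Pool.Agent.H725R3.ESK14
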