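import Pool.Agent.H725R3.ES.TLb
import Pool.Agent.H023R3.ES.TLa

set_option autoImplicit false

/-! Project ES, TaskTL: assembly of TLa (helper23) and TLb. -/

namespace Pool.Agent.H725R3.ES

open Pool.Agent.H242R3.ES

theorem t : TaskTL :=
  taskTL_of fun _ _ _ s u hc hl => Pool.Agent.H023R3.ES.tla s u hc hl

end Pool.Agent.H725R3.ES
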